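import Pool.Agent.H961.T3.Test
import Pool.Agent.H961.T6.StmA

/-! Project KS: from the moments to the Laplace functional of independent Poisson processes at `K`
separated scales (`S_BON → S_TESTK`). -/

set_option autoImplicit false

namespace Pool.Agent.H36.KS

open Finset Pool.Agent.H961.T3 Pool.Agent.H961.T3.Testh Pool.Agent.H961.T6 MeasureTheory

noncomputable section

section words

variable {κ : Type}

/-- sum over the words of length `k` over `T`, weighted with `c` -/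
def SWK (c : κ → ℝ) (T : Finset κ) : ℕ → (List κ → ℝ) → ℝ
  | 0, F => F []
  | k + 1, F => ∑ l ∈ T, c l * SWK c T k (fun ls => F (l :: ls))

variable {c : κ → ℝ} {T : Finset κ}

theorem SWK_mul (x : ℝ) (k : ℕ) : ∀ F : List κ → ℝ,
    SWK c T k (fun ls => x * F ls) = x * SWK c T k F := by
  induction k with
  | zero => intro F; rfl
  | succ k ih =>
    intro F
    simp only [SWK, ih, mul_sum]
    refine sum_congr rfl fun l _ => by ring

theorem SWK_sum {κ' : Type} (t : Finset κ') (k : ℕ) : ∀ F : κ' → List κ → ℝ,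
    SWK c T k (fun ls => ∑ i ∈ t, F i ls) = ∑ i ∈ t, SWK c T k (F i) := by
  induction k with
  | zero => intro F; rfl
  | succ k ih =>
    intro F
    simp only [SWK, ih, mul_sum]
    exact sum_comm

theorem SWK_bound {g : κ → ℝ} (k : ℕ) : ∀ (η : ℝ) (F G : List κ → ℝ),
    (∀ ls : List κ, ls.length = k → (∀ l ∈ ls, l ∈ T) → |F ls - G ls| ≤ η * (ls.map g).prod) →
    |SWK c T k F - SWK c T k G| ≤ (∑ l ∈ T, |c l| * g l) ^ k * η := by
  induction k with
  | zero => intro η F G h; simpa [SWK] using h [] rfl (by simp)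
  | succ k ih =>
    intro η F G h
    simp only [SWK]
    rw [← sum_sub_distrib]
    calc |∑ l ∈ T, (c l * SWK c T k (fun ls => F (l :: ls)) -
            c l * SWK c T k (fun ls => G (l :: ls)))|
        ≤ ∑ l ∈ T, |c l * SWK c T k (fun ls => F (l :: ls)) -
            c l * SWK c T k (fun ls => G (l :: ls))| := abs_sum_le_sum_abs _ _
      _ ≤ ∑ l ∈ T, |c l| * ((∑ l ∈ T, |c l| * g l) ^ k * (η * g l)) := by
          refine sum_le_sum fun l hl => ?_
          rw [← mul_sub, abs_mul]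
          refine mul_le_mul_of_nonneg_left (ih _ _ _ ?_) (abs_nonneg _)
          intro ls h1 h2
          have h3 := h (l :: ls) (by simp [h1]) (by
            intro l' hl'
            rcases List.mem_cons.1 hl' with rfl | h3
            · exact hl
            · exact h2 l' h3)
          rw [List.map_cons, List.prod_cons, ← mul_assoc] at h3
          exact h3
      _ = (∑ l ∈ T, |c l| * g l) ^ (k + 1) * η := by
          rw [pow_succ, mul_assoc, sum_mul, mul_sum]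
          refine sum_congr rfl fun l _ => by ring

theorem SWK_prod (g : κ → ℝ) (k : ℕ) :
    SWK c T k (fun ls => (ls.map g).prod) = (∑ l ∈ T, c l * g l) ^ k := by
  induction k with
  | zero => simp [SWK]
  | succ k ih =>
    simp only [SWK, List.map_cons, List.prod_cons, SWK_mul, ih]
    rw [pow_succ, mul_comm, sum_mul]
    refine sum_congr rfl fun l _ => by ring

theorem fmK_eq {ι : Type} [DecidableEq ι] (a : ι → ℕ) (E : κ → ℝ) (k : ℕ) : ∀ s : Finset ι,
    fm (fun C => ∑ l ∈ T, c l * ((a C : ℝ) * E l ^ a C)) k s =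
      SWK c T k (fun ls => ph a (ls.map E) s) := by
  induction k with
  | zero => intro s; simp [fm, SWK, ph]
  | succ k ih =>
    intro s
    simp only [fm, SWK, List.map_cons, ph, ih, SWK_sum, SWK_mul]
    simp only [sum_mul, mul_sum]
    rw [sum_comm]
    refine sum_congr rfl fun l _ => sum_congr rfl fun C _ => by ring

end words

theorem momentK {Ω ι : Type} [Fintype Ω] [DecidableEq ι] {κ : Type} (P : Ω → ℝ)
    (s : Ω → Finset ι) (a : ι → ℕ) (η : ℝ) (T : Finset κ) (c g m E : κ → ℝ) (J : ℕ)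
    (hyp : ∀ ls : List κ, ls.length ≤ J → (∀ l ∈ ls, l ∈ T) →
      |∑ o, P o * ph a (ls.map E) (s o) - (ls.map m).prod| ≤ η * (ls.map g).prod)
    (k : ℕ) (hk : k ≤ J) :
    |∑ o, P o * fm (fun C => ∑ l ∈ T, c l * ((a C : ℝ) * E l ^ a C)) k (s o) -
      (∑ l ∈ T, c l * m l) ^ k| ≤ (∑ l ∈ T, |c l| * g l) ^ k * η := by
  have e1 : ∑ o, P o * fm (fun C => ∑ l ∈ T, c l * ((a C : ℝ) * E l ^ a C)) k (s o) =
      SWK c T k (fun ls => ∑ o, P o * ph a (ls.map E) (s o)) := by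
    rw [SWK_sum univ k (fun o ls => P o * ph a (ls.map E) (s o))]
    refine sum_congr rfl fun o _ => ?_
    rw [fmK_eq a E k (s o), SWK_mul]
  rw [e1, ← SWK_prod m k]
  exact SWK_bound k η _ _ (fun ls h1 h2 => hyp ls (h1.le.trans hk) h2)

theorem weierM (N : ℕ) (φ : Fin N → ℝ → ℝ) (α β : ℝ) (hα : 0 < α) (hαβ : α ≤ β)
    (hc : ∀ i, Continuous (φ i)) (h01 : ∀ i u, 0 ≤ φ i u ∧ φ i u ≤ 1)
    (hs : ∀ i u, (u < α ∨ β < u) → φ i u = 0) (η₁ : ℝ) (hη : 0 < η₁) :
    ∃ (M : ℕ) (c : Fin N → ℕ → ℝ), 1 ≤ M ∧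
      (∀ i u, 0 ≤ u → |φ i u - u * ∑ l ∈ Icc 1 M, c i l * Real.exp (-u) ^ l| ≤
        η₁ * (u * Real.exp (-u))) ∧
      ∀ i, |∑ l ∈ Icc 1 M, c i l / l - ∫ u in Set.Ioi (0:ℝ), φ i u / u| ≤ η₁ := by
  choose M0 c0 h0 h1 h2 using fun i => weier (φ i) (hc i) (h01 i) α β hα hαβ (hs i) η₁ hη
  have hle : ∀ i, M0 i ≤ 1 + ∑ i, M0 i := fun i =>
    (single_le_sum (f := M0) (fun _ _ => Nat.zero_le _) (mem_univ i)).trans (Nat.le_add_left _ _)
  have pad : ∀ (i : Fin N) (F : ℕ → ℝ),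
      ∑ l ∈ Icc 1 (1 + ∑ i, M0 i), (if l ≤ M0 i then c0 i l else 0) * F l =
        ∑ l ∈ Icc 1 (M0 i), c0 i l * F l := by
    intro i F
    symm
    calc ∑ l ∈ Icc 1 (M0 i), c0 i l * F l =
          ∑ l ∈ Icc 1 (M0 i), (if l ≤ M0 i then c0 i l else 0) * F l :=
          sum_congr rfl fun l hl => by rw [if_pos (mem_Icc.1 hl).2]
      _ = _ := by
          refine sum_subset (Icc_subset_Icc_right (hle i)) fun l h3 h4 => ?_
          have h5 : ¬ l ≤ M0 i := fun h5 => h4 (mem_Icc.2 ⟨(mem_Icc.1 h3).1, h5⟩)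
          rw [if_neg h5, zero_mul]
  refine ⟨1 + ∑ i, M0 i, fun i l => if l ≤ M0 i then c0 i l else 0, Nat.le_add_right _ _, ?_, ?_⟩
  · intro i u hu
    have h3 := h1 i u hu
    rw [← pad i (fun l => Real.exp (-u) ^ l)] at h3
    exact h3
  · intro i
    have e : ∑ l ∈ Icc 1 (1 + ∑ i, M0 i), (if l ≤ M0 i then c0 i l else 0) / (l : ℝ) =
        ∑ l ∈ Icc 1 (M0 i), c0 i l / l := by
      simp only [div_eq_mul_inv]
      exact pad i (fun l => ((l : ℕ) : ℝ)⁻¹)
    show |∑ l ∈ Icc 1 (1 + ∑ i, M0 i), (if l ≤ M0 i then c0 i l else 0) / (l : ℝ) - _| ≤ _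
    rw [e]
    exact h2 i

theorem testk (hBON : S_BON) : S_TESTK := by
  intro N φ α β hα hαβ hc h01 hs ε hε
  obtain ⟨lam, hlam⟩ : ∃ lam : ℝ, lam = ∑ i, ∫ u in Set.Ioi (0:ℝ), φ i u / u := ⟨_, rfl⟩
  rw [← hlam]
  -- the degree
  have t1 : Filter.Tendsto (fun n : ℕ => lam ^ n / (n.factorial : ℝ)) Filter.atTop (nhds 0) :=
    FloorSemiring.tendsto_pow_div_factorial_atTop lam
  have t2 : Filter.Tendsto (fun n : ℕ => ∑ j ∈ range n, (-lam) ^ j / (j.factorial : ℝ))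
      Filter.atTop (nhds (Real.exp (-lam))) := by
    have := NormedSpace.expSeries_div_hasSum_exp (𝔸 := ℝ) (-lam)
    rw [← Real.exp_eq_exp_ℝ] at this
    exact this.tendsto_sum_nat
  obtain ⟨J, hJ1, hJ2, hJ3⟩ : ∃ J : ℕ, 1 ≤ J ∧ lam ^ J / (J.factorial : ℝ) ≤ ε / 4 ∧
      |∑ j ∈ range J, (-lam) ^ j / (j.factorial : ℝ) - Real.exp (-lam)| ≤ ε / 4 := by
    have h1 := t1.eventually (eventually_le_nhds (show (0:ℝ) < ε / 4 by positivity))
    have h2 := (Metric.tendsto_nhds.1 t2) (ε / 4) (by positivity)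
    obtain ⟨J, hJ⟩ := ((Filter.eventually_ge_atTop 1).and (h1.and h2)).exists
    exact ⟨J, hJ.1, hJ.2.1, hJ.2.2.le⟩
  obtain ⟨δ, hδ⟩ : ∃ δ : ℝ, δ = ε / (2 * (J + 1)) := ⟨_, rfl⟩
  have hJ0 : (0:ℝ) ≤ J := Nat.cast_nonneg J
  have hδ0 : 0 < δ := by rw [hδ]; positivity
  have hδJ : (J + 1) * δ = ε / 2 := by rw [hδ]; field_simp
  obtain ⟨K, hK⟩ : ∃ K : ℝ, K = Real.exp β / α + 1 := ⟨_, rfl⟩
  have hK1 : 1 ≤ K := by
    rw [hK]; have : 0 < Real.exp β / α := by positivity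
    linarith
  obtain ⟨δ', hδ'0, hδ'⟩ : ∃ δ' > 0, ∀ x : ℝ, |x - lam| < δ' → ∀ k ∈ range (J + 1),
      |x ^ k - lam ^ k| ≤ δ / 3 := by
    have h1 : ∀ᶠ x in nhds lam, ∀ k ∈ range (J + 1), |x ^ k - lam ^ k| ≤ δ / 3 := by
      rw [Filter.eventually_all_finset]
      intro k _
      have h2 : Filter.Tendsto (fun x : ℝ => |x ^ k - lam ^ k|) (nhds lam) (nhds |lam ^ k - lam ^ k|) :=
        (((continuous_pow k).sub continuous_const).abs).tendsto lam
      rw [sub_self, abs_zero] at h2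
      exact h2.eventually (eventually_le_nhds (show (0:ℝ) < δ / 3 by positivity))
    obtain ⟨δ', h3, h4⟩ := Metric.eventually_nhds_iff.1 h1
    exact ⟨δ', h3, fun x hx => h4 (by rwa [Real.dist_eq])⟩
  obtain ⟨N1, hN1⟩ : ∃ N1 : ℝ, N1 = (N : ℝ) + 1 := ⟨_, rfl⟩
  have hNN : (0:ℝ) ≤ (N : ℝ) := Nat.cast_nonneg N
  have hN11 : 1 ≤ N1 := by rw [hN1]; linarith
  have hN10 : 0 < N1 := by linarith
  obtain ⟨η₁, hη₁⟩ : ∃ η₁ : ℝ, η₁ = min (min 1 (δ' / (2 * N1)))
      (δ / (6 * (J + 1) * K ^ J * N1 ^ J)) := ⟨_, rfl⟩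
  have hKJ : (0:ℝ) < K ^ J := by positivity
  have hNJ : (0:ℝ) < N1 ^ J := by positivity
  have hη₁0 : 0 < η₁ := by rw [hη₁]; positivity
  have hη₁1 : η₁ ≤ 1 := by rw [hη₁]; exact (min_le_left _ _).trans (min_le_left _ _)
  have hη₁2 : η₁ * (2 * N1) ≤ δ' := by
    have : η₁ ≤ δ' / (2 * N1) := by rw [hη₁]; exact (min_le_left _ _).trans (min_le_right _ _)
    exact (le_div_iff₀ (by positivity)).1 this
  have hη₁3 : η₁ * (6 * (J + 1) * K ^ J * N1 ^ J) ≤ δ := by
    have : η₁ ≤ δ / (6 * (J + 1) * K ^ J * N1 ^ J) := by rw [hη₁]; exact min_le_right _ _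
    exact (le_div_iff₀ (by positivity)).1 this
  obtain ⟨M, c, hM1, hw1, hw2⟩ := weierM N φ α β hα hαβ hc h01 hs η₁ hη₁0
  obtain ⟨S, hS⟩ : ∃ S : ℝ, S = 1 + ∑ i, ∑ l ∈ Icc 1 M, |c i l| := ⟨_, rfl⟩
  have hS0 : 0 ≤ ∑ i, ∑ l ∈ Icc 1 M, |c i l| :=
    sum_nonneg fun _ _ => sum_nonneg fun _ _ => abs_nonneg _
  have hS1 : 1 ≤ S := by rw [hS]; linarith
  have hSJ : (0:ℝ) < S ^ J := by positivity
  obtain ⟨η, hη⟩ : ∃ η : ℝ, η = min 1 (δ / (3 * S ^ J)) := ⟨_, rfl⟩
  have hη0 : 0 < η := by rw [hη]; positivity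
  have hη1 : η ≤ 1 := by rw [hη]; exact min_le_left _ _
  have hη2 : S ^ J * η ≤ δ / 3 := by
    have : η ≤ δ / (3 * S ^ J) := by rw [hη]; exact min_le_right _ _
    have := (le_div_iff₀ (by positivity)).1 this
    linarith
  refine ⟨η, J, M, hη0, ?_⟩
  intro Ω ι _ _ P s a n hn hsep hP hP1 hyp0
  -- the words
  let E : Fin N × ℕ → ℝ := fun l => Real.exp (-((l.2 : ℝ) / n l.1))
  let m : Fin N × ℕ → ℝ := fun l => n l.1 / (l.2 : ℝ)
  let g : Fin N × ℕ → ℝ := fun l => n l.1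
  let w : Fin N × ℕ → ℝ := fun l => c l.1 l.2 / n l.1
  let w1 : Fin N × ℕ → ℝ := fun l => 1 / n l.1
  have hyp : ∀ M' ≤ M, ∀ ls : List (Fin N × ℕ), ls.length ≤ J →
      (∀ l ∈ ls, l ∈ (univ : Finset (Fin N)) ×ˢ Icc 1 M') →
      |∑ o, P o * ph a (ls.map E) (s o) - (ls.map m).prod| ≤ η * (ls.map g).prod := by
    intro M' hM' ls h1 h2
    refine hyp0 ls h1 fun l hl => ?_
    have h3 := mem_Icc.1 (mem_product.1 (h2 l hl)).2
    exact ⟨h3.1, h3.2.trans hM'⟩
  set f : ι → ℝ := fun C => ∑ i, φ i (a C / n i) with hf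
  set h : ι → ℝ := fun C => ∑ i, (a C / n i) * Real.exp (-(a C / n i)) with hh
  set f' : ι → ℝ := fun C => ∑ l ∈ (univ : Finset (Fin N)) ×ˢ Icc 1 M,
    w l * ((a C : ℝ) * E l ^ a C) with hf'
  have hu0 : ∀ (C : ι) (i : Fin N), (0:ℝ) ≤ a C / n i := fun C i =>
    div_nonneg (Nat.cast_nonneg _) (hn i).le
  have hh0 : ∀ C, 0 ≤ h C := fun C => by
    rw [hh]
    exact sum_nonneg fun i _ => mul_nonneg (hu0 C i) (Real.exp_pos _).le
  have hexp : ∀ (l : Fin N × ℕ) (C : ι), E l ^ a C = Real.exp (-(a C / n l.1)) ^ l.2 := by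
    intro l C
    show Real.exp (-((l.2 : ℝ) / n l.1)) ^ a C = _
    rw [← Real.exp_nat_mul, ← Real.exp_nat_mul]
    congr 1; ring
  have one : ∀ (i : Fin N) (u : ℝ), 0 ≤ u → φ i u ≤ (K - 1) * (u * Real.exp (-u)) := by
    intro i u hu
    rw [hK, add_sub_cancel_right]
    by_cases h1 : u < α ∨ β < u
    · rw [hs i u h1]; positivity
    · push Not at h1
      have h2 : 1 ≤ Real.exp β * Real.exp (-u) := by
        rw [← Real.exp_add]; exact Real.one_le_exp (by linarith)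
      have h3 : 1 ≤ u / α := (one_le_div hα).2 h1.1
      calc φ i u ≤ 1 := (h01 i u).2
        _ ≤ (Real.exp β * Real.exp (-u)) * (u / α) := one_le_mul_of_one_le_of_one_le h2 h3
        _ = Real.exp β / α * (u * Real.exp (-u)) := by ring
  have hf0 : ∀ C, 0 ≤ f C := fun C => sum_nonneg fun i _ => (h01 i _).1
  have b1 : ∀ C, |f C| ≤ (K - 1) * h C := by
    intro C
    rw [abs_of_nonneg (hf0 C)]
    show ∑ i, φ i (a C / n i) ≤ (K - 1) * ∑ i, (a C / n i) * Real.exp (-(a C / n i))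
    rw [mul_sum]
    exact sum_le_sum fun i _ => one i _ (hu0 C i)
  have hf'e : ∀ C, f' C = ∑ i, (a C / n i) * ∑ l ∈ Icc 1 M, c i l * Real.exp (-(a C / n i)) ^ l := by
    intro C
    show ∑ l ∈ (univ : Finset (Fin N)) ×ˢ Icc 1 M, w l * ((a C : ℝ) * E l ^ a C) = _
    rw [sum_product]
    refine sum_congr rfl fun i _ => ?_
    rw [mul_sum]
    refine sum_congr rfl fun l _ => ?_
    rw [hexp (i, l) C]
    show c i l / n i * ((a C : ℝ) * Real.exp (-(a C / n i)) ^ l) = _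
    ring
  have b3 : ∀ C, |f C - f' C| ≤ η₁ * h C := by
    intro C
    rw [hf'e C]
    show |∑ i, φ i (a C / n i) - ∑ i, (a C / n i) * ∑ l ∈ Icc 1 M, c i l *
      Real.exp (-(a C / n i)) ^ l| ≤ η₁ * ∑ i, (a C / n i) * Real.exp (-(a C / n i))
    rw [← sum_sub_distrib, mul_sum]
    exact (abs_sum_le_sum_abs _ _).trans (sum_le_sum fun i _ => hw1 i _ (hu0 C i))
  have b1' : ∀ C, |f C| ≤ K * h C := fun C => (b1 C).trans (by nlinarith [hh0 C])
  have b2 : ∀ C, |f' C| ≤ K * h C := by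
    intro C
    have h1 := b1 C
    have h2 := b3 C
    have h3 : |f' C| ≤ |f C| + |f C - f' C| := by
      have := abs_sub (f C) (f C - f' C)
      rw [sub_sub_cancel] at this
      exact this
    have h4 : η₁ * h C ≤ 1 * h C := mul_le_mul_of_nonneg_right hη₁1 (hh0 C)
    linarith
  have mh : ∀ k ≤ J, ∑ o, P o * fm h k (s o) ≤ 2 * N1 ^ J := by
    intro k hk
    have h1 := momentK P s a η ((univ : Finset (Fin N)) ×ˢ Icc 1 1) w1 g m E J (hyp 1 hM1) k hk
    have h2 : (fun C : ι => ∑ l ∈ (univ : Finset (Fin N)) ×ˢ Icc 1 1,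
        w1 l * ((a C : ℝ) * E l ^ a C)) = h := by
      funext C
      rw [sum_product]
      refine sum_congr rfl fun i _ => ?_
      rw [Icc_self, sum_singleton, hexp (i, 1) C]
      show 1 / n i * ((a C : ℝ) * Real.exp (-(a C / n i)) ^ 1) = _
      ring
    have h3 : ∑ l ∈ (univ : Finset (Fin N)) ×ˢ Icc 1 1, w1 l * m l = (N : ℝ) := by
      rw [sum_product]
      have : ∀ i : Fin N, ∑ l ∈ Icc 1 1, w1 (i, l) * m (i, l) = 1 := by
        intro i
        rw [Icc_self, sum_singleton]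
        show 1 / n i * (n i / ((1 : ℕ) : ℝ)) = 1
        have := (hn i).ne'
        rw [Nat.cast_one]
        field_simp
      rw [sum_congr rfl fun i _ => this i, sum_const, card_univ, Fintype.card_fin, nsmul_eq_mul,
        mul_one]
    have h4 : ∑ l ∈ (univ : Finset (Fin N)) ×ˢ Icc 1 1, |w1 l| * g l = (N : ℝ) := by
      rw [sum_product]
      have : ∀ i : Fin N, ∑ l ∈ Icc 1 1, |w1 (i, l)| * g (i, l) = 1 := by
        intro i
        rw [Icc_self, sum_singleton]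
        show |1 / n i| * n i = 1
        have := (hn i).ne'
        rw [abs_of_pos (one_div_pos.2 (hn i))]
        field_simp
      rw [sum_congr rfl fun i _ => this i, sum_const, card_univ, Fintype.card_fin, nsmul_eq_mul,
        mul_one]
    rw [h2, h3, h4] at h1
    have h5 := (abs_le.1 h1).2
    have h6 : (N : ℝ) ^ k ≤ N1 ^ J := by
      calc (N : ℝ) ^ k ≤ N1 ^ k := pow_le_pow_left₀ hNN (by rw [hN1]; linarith) k
        _ ≤ N1 ^ J := pow_le_pow_right₀ hN11 hk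
    have h7 : (N : ℝ) ^ k * η ≤ N1 ^ J * 1 :=
      mul_le_mul h6 hη1 hη0.le hNJ.le
    linarith
  have hSe : ∑ l ∈ (univ : Finset (Fin N)) ×ˢ Icc 1 M, |w l| * g l =
      ∑ i, ∑ l ∈ Icc 1 M, |c i l| := by
    rw [sum_product]
    refine sum_congr rfl fun i _ => sum_congr rfl fun l _ => ?_
    show |c i l / n i| * n i = |c i l|
    rw [abs_div, abs_of_pos (hn i), div_mul_cancel₀ _ (hn i).ne']
  have hLe : ∑ l ∈ (univ : Finset (Fin N)) ×ˢ Icc 1 M, w l * m l =
      ∑ i, ∑ l ∈ Icc 1 M, c i l / l := by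
    rw [sum_product]
    refine sum_congr rfl fun i _ => sum_congr rfl fun l _ => ?_
    show c i l / n i * (n i / (l : ℝ)) = c i l / l
    have := (hn i).ne'
    field_simp
  have hLd : |∑ i, ∑ l ∈ Icc 1 M, c i l / l - lam| < δ' := by
    rw [hlam, ← sum_sub_distrib]
    have h1 : ∑ i : Fin N, |∑ l ∈ Icc 1 M, c i l / l - ∫ u in Set.Ioi (0:ℝ), φ i u / u| ≤
        ∑ i : Fin N, η₁ := sum_le_sum fun i _ => hw2 i
    rw [sum_const, card_univ, Fintype.card_fin, nsmul_eq_mul] at h1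
    refine lt_of_le_of_lt ((abs_sum_le_sum_abs _ _).trans h1) ?_
    have h2 : (N : ℝ) * η₁ < η₁ * (2 * N1) := by
      rw [hN1]; nlinarith
    exact lt_of_lt_of_le h2 hη₁2
  have mf : ∀ k ≤ J, |∑ o, P o * fm f k (s o) - lam ^ k| ≤ δ := by
    intro k hk
    have h1 := momentK P s a η ((univ : Finset (Fin N)) ×ˢ Icc 1 M) w g m E J (hyp M le_rfl) k hk
    rw [hSe, hLe] at h1
    have h2 : |∑ o, P o * fm f k (s o) - ∑ o, P o * fm f' k (s o)| ≤ δ / 3 := by
      rw [← sum_sub_distrib]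
      have h3 : (k : ℝ) * η₁ * K ^ k * (2 * N1 ^ J) ≤ δ / 3 := by
        have h4 : (k : ℝ) ≤ J + 1 := by
          have : (k : ℝ) ≤ J := by exact_mod_cast hk
          linarith
        have h5 : K ^ k ≤ K ^ J := pow_le_pow_right₀ hK1 hk
        calc (k : ℝ) * η₁ * K ^ k * (2 * N1 ^ J) ≤ (J + 1) * η₁ * K ^ J * (2 * N1 ^ J) := by
              gcongr
          _ ≤ δ / 3 := by linarith
      calc |∑ o, (P o * fm f k (s o) - P o * fm f' k (s o))|
          ≤ ∑ o, |P o * fm f k (s o) - P o * fm f' k (s o)| := abs_sum_le_sum_abs _ _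
        _ ≤ ∑ o, (k : ℝ) * η₁ * K ^ k * (P o * fm h k (s o)) := by
            refine sum_le_sum fun o _ => ?_
            rw [← mul_sub, abs_mul, abs_of_nonneg (hP o)]
            have := mul_le_mul_of_nonneg_left
              (fm_diff hK1 hη₁0.le hh0 b1' b2 b3 k (s o)) (hP o)
            linarith
        _ = (k : ℝ) * η₁ * K ^ k * ∑ o, P o * fm h k (s o) := by rw [mul_sum]
        _ ≤ (k : ℝ) * η₁ * K ^ k * (2 * N1 ^ J) :=
            mul_le_mul_of_nonneg_left (mh k hk) (by positivity)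
        _ ≤ δ / 3 := h3
    have h3 : |∑ o, P o * fm f' k (s o) - (∑ i, ∑ l ∈ Icc 1 M, c i l / l) ^ k| ≤ δ / 3 := by
      refine h1.trans ?_
      have h4 : (∑ i, ∑ l ∈ Icc 1 M, |c i l|) ^ k ≤ S ^ J := by
        calc (∑ i, ∑ l ∈ Icc 1 M, |c i l|) ^ k ≤ S ^ k := by
              refine pow_le_pow_left₀ hS0 ?_ k
              rw [hS]; linarith
          _ ≤ S ^ J := pow_le_pow_right₀ hS1 hk
      exact (mul_le_mul_of_nonneg_right h4 hη0.le).trans hη2
    have h4 : |(∑ i, ∑ l ∈ Icc 1 M, c i l / l) ^ k - lam ^ k| ≤ δ / 3 :=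
      hδ' _ hLd k (mem_range.2 (by omega))
    have h5 := abs_le.1 h2
    have h6 := abs_le.1 h3
    have h7 := abs_le.1 h4
    exact abs_le.2 ⟨by linarith [h5.1, h6.1, h7.1], by linarith [h5.2, h6.2, h7.2]⟩
  -- Bonferroni
  obtain ⟨J', rfl⟩ : ∃ J' : ℕ, J = J' + 1 := ⟨J - 1, by omega⟩
  have hsupp : ∀ (C : ι) (i : Fin N), φ i (a C / n i) ≠ 0 →
      α * n i ≤ (a C : ℝ) ∧ (a C : ℝ) ≤ β * n i := by
    intro C i h0
    by_contra h1
    refine h0 (hs i _ ?_)
    by_contra h2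
    push Not at h2
    exact h1 ⟨(le_div_iff₀ (hn i)).1 h2.1, (div_le_iff₀ (hn i)).1 h2.2⟩
  have hf1 : ∀ C, f C ≤ 1 := by
    intro C
    show ∑ i, φ i (a C / n i) ≤ 1
    by_cases h0 : ∃ i, φ i (a C / n i) ≠ 0
    · obtain ⟨i, hi⟩ := h0
      rw [sum_eq_single i]
      · exact (h01 i _).2
      · intro j _ hji
        by_contra hj
        have h1 := hsupp C i hi
        have h2 := hsupp C j hj
        rcases lt_or_gt_of_ne hji with h3 | h3
        · have := hsep j i h3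
          linarith [h1.1, h2.2]
        · have := hsep i j h3
          linarith [h1.2, h2.1]
      · intro h1; exact absurd (mem_univ i) h1
    · push Not at h0
      rw [sum_eq_zero fun i _ => h0 i]
      exact zero_le_one
  have hf01 : ∀ C, 0 ≤ f C ∧ f C ≤ 1 := fun C => ⟨hf0 C, hf1 C⟩
  have c1 : |∑ o, P o * ∏ C ∈ s o, (1 - f C) -
      ∑ j ∈ range (J' + 1), (-1) ^ j * (∑ o, P o * fm f j (s o)) / (j.factorial : ℝ)| ≤
      (∑ o, P o * fm f (J' + 1) (s o)) / ((J' + 1).factorial : ℝ) := by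
    have e1 : ∑ j ∈ range (J' + 1), (-1) ^ j * (∑ o, P o * fm f j (s o)) / (j.factorial : ℝ) =
        ∑ o, P o * ∑ j ∈ range (J' + 1), (-1) ^ j * fm f j (s o) / (j.factorial : ℝ) := by
      simp only [mul_sum, sum_div]
      rw [sum_comm]
      exact sum_congr rfl fun o _ => sum_congr rfl fun j _ => by ring
    rw [e1, ← sum_sub_distrib]
    refine (abs_sum_le_sum_abs _ _).trans ?_
    rw [sum_div]
    refine sum_le_sum fun o _ => ?_
    rw [← mul_sub, abs_mul, abs_of_nonneg (hP o), mul_div_assoc]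
    exact mul_le_mul_of_nonneg_left (hBON ι f (s o) hf01 J') (hP o)
  have c2 : |∑ j ∈ range (J' + 1), (-1) ^ j * (∑ o, P o * fm f j (s o)) / (j.factorial : ℝ) -
      ∑ j ∈ range (J' + 1), (-lam) ^ j / (j.factorial : ℝ)| ≤ (J' + 1) * δ := by
    rw [← sum_sub_distrib]
    refine (abs_sum_le_sum_abs _ _).trans ?_
    have : ((J' : ℝ) + 1) * δ = ∑ j ∈ range (J' + 1), δ := by
      rw [sum_const, card_range, nsmul_eq_mul]; push_cast; ring
    rw [this]
    refine sum_le_sum fun j hj => ?_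
    have hj' : j ≤ J' + 1 := (mem_range.1 hj).le
    have e2 : (-1) ^ j * (∑ o, P o * fm f j (s o)) / (j.factorial : ℝ) -
        (-lam) ^ j / (j.factorial : ℝ) =
        ((-1) ^ j * (∑ o, P o * fm f j (s o) - lam ^ j)) / (j.factorial : ℝ) := by
      rw [neg_pow lam j]; ring
    have hfac : (1:ℝ) ≤ (j.factorial : ℝ) := by exact_mod_cast Nat.one_le_iff_ne_zero.2 j.factorial_ne_zero
    rw [e2, abs_div, abs_mul, abs_pow, abs_neg, abs_one, one_pow, one_mul,
      abs_of_pos (lt_of_lt_of_le one_pos hfac)]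
    exact (div_le_self (abs_nonneg _) hfac).trans (mf j hj')
  have c3 : (∑ o, P o * fm f (J' + 1) (s o)) / ((J' + 1).factorial : ℝ) ≤ ε / 4 + δ := by
    have h1 := (abs_le.1 (mf (J' + 1) le_rfl)).2
    have hfac : (1:ℝ) ≤ ((J' + 1).factorial : ℝ) := by
      exact_mod_cast Nat.one_le_iff_ne_zero.2 (J' + 1).factorial_ne_zero
    have h2 : ∑ o, P o * fm f (J' + 1) (s o) ≤ lam ^ (J' + 1) + δ := by linarith
    calc (∑ o, P o * fm f (J' + 1) (s o)) / ((J' + 1).factorial : ℝ) ≤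
          (lam ^ (J' + 1) + δ) / ((J' + 1).factorial : ℝ) := by gcongr
      _ = lam ^ (J' + 1) / ((J' + 1).factorial : ℝ) + δ / ((J' + 1).factorial : ℝ) := add_div _ _ _
      _ ≤ ε / 4 + δ := add_le_add hJ2 (div_le_self hδ0.le hfac)
  have g1 := abs_le.1 c1
  have g2 := abs_le.1 c2
  have g3 := abs_le.1 hJ3
  push_cast at hδJ
  have hδJ' : (J' + 1) * δ + δ = ε / 2 := by linarith
  refine abs_le.2 ⟨?_, ?_⟩
  · linarith [g1.1, g2.1, g3.1]
  · linarith [g1.2, g2.2, g3.2]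

end

end Pool.Agent.H36.KS
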